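import Pool.Agent.R470.AK.Lac3

/-! # Lacunary slopes are of no use in the arithmetic Kakeya conjecture

For one finite slope the trivial bound `|π₋₁(A)| ≤ max(|π_∞(A)|, |π_r(A)|) ^ 2` has the best possible
exponent; the conjecture says that the exponent tends to `1` for suitable sets of more and more
slopes.

1. Let `κ < 2`. EVERY infinite set `R` of rational slopes contains an infinite set `T` such that no
   finite `S ⊆ T` (of any size) satisfies the inequality with the exponent `κ`, even up to a constant.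
2. Let `K ≥ 3` and `κ < 2 - 2 / K`. The same is true for the slopes of every sequence of integers
   with `r_{j+1} ≥ r_j ^ K` and large `r₀`. In particular the conjecture with `ε < 1 / 3` cannot be
   proved with slopes which satisfy `r_{j+1} ≥ r_j ^ 3`.

So the conjecture is a statement about special sets of slopes: neither a large number of slopes nor
all slopes of a lacunary sequence give anything (better than the exponent of a single slope). -/

set_option autoImplicit false

namespace Pool.Agent.Results.MP_169869_co.LacunarySlopes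

/-- the projection `π_r(A) = {x + r y : (x, y) ∈ A}` -/
def proj (r : ℚ) (A : Finset (ℤ × ℤ)) : Finset ℚ :=
  A.image (fun p : ℤ × ℤ => (p.1 : ℚ) + r * (p.2 : ℚ))

/-- the projection `π_∞(A) = {y : (x, y) ∈ A}` -/
def projInf (A : Finset (ℤ × ℤ)) : Finset ℚ := A.image (fun p : ℤ × ℤ => (p.2 : ℚ))

/-- the largest size of a projection of `A` with slope `∞` or in `S` -/
def big (S : Finset ℚ) (A : Finset (ℤ × ℤ)) : ℕ :=
  max (projInf A).card (S.sup fun r => (proj r A).card)

theorem result :
    -- 1. every infinite set of slopes contains an infinite set of slopes of no use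
    (∀ κ : ℝ, κ < 2 → ∀ R : Set ℚ, R.Infinite → ∃ T : Set ℚ, T ⊆ R ∧ T.Infinite ∧
      ∀ S : Finset ℚ, (S : Set ℚ) ⊆ T → ∀ C : ℝ, ∃ A : Finset (ℤ × ℤ),
        C * (big S A : ℝ) ^ κ < (proj (-1) A).card) ∧
    -- 2. lacunary sequences of integers are of no use
    (∀ K : ℕ, 3 ≤ K → ∀ κ : ℝ, κ < 2 - 2 / K → ∃ N : ℕ, ∀ r : ℕ → ℕ, N ≤ r 0 →
      (∀ j, r j ^ K ≤ r (j + 1)) →
      ∀ S : Finset ℚ, (S : Set ℚ) ⊆ Set.range (fun j => (r j : ℚ)) → ∀ C : ℝ,
        ∃ A : Finset (ℤ × ℤ), C * (big S A : ℝ) ^ κ < (proj (-1) A).card) := by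
  classical
  refine ⟨fun κ hκ R hR => ?_, fun K hK κ hκ => ?_⟩
  · obtain ⟨T, h1, h2, h3⟩ := Pool.Agent.R470.AK.hereditary κ hκ R hR
    exact ⟨T, h1, h2, h3⟩
  · obtain ⟨n, rfl⟩ : ∃ n, K = n + 1 := ⟨K - 1, by omega⟩
    have h : κ < 2 * n / (n + 1) := by
      have hn : (0 : ℝ) < (n : ℝ) + 1 := by positivity
      have e : (2 : ℝ) * n / (n + 1) = 2 - 2 / ((n + 1 : ℕ) : ℝ) := by
        push_cast
        field_simp
        ring
      rw [e]
      exact hκ
    obtain ⟨N, hN⟩ := Pool.Agent.R470.AK.explicit n (by omega) κ h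
    refine ⟨N, fun r h0 h1 S hS C => ?_⟩
    exact hN r h0 h1 S hS C

end Pool.Agent.Results.MP_169869_co.LacunarySlopes
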