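import Pool.Agent.R181.MajLin

/-!
# The arithmetic Kakeya conjecture for sets closed under majority operations

Let `S` be a finite set of slopes. A finite set `A ⊂ ℤ × ℤ` is called *majority-closed* if there are
**some** majority operations `μ_r` (`μ(a,a,b) = μ(a,b,a) = μ(b,a,a) = a`), one for each of the
projections `π_r`, `r ∈ S`, and one for `π_∞`, such that for all `a, b, c ∈ A` there is `d ∈ A` with
`π_r(d) = μ_r(π_r(a), π_r(b), π_r(c))` for all these `r`. The operations are arbitrary functions,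
unrelated to each other and to the additive structure. For example, the projections of `A` may carry
arbitrary lattice structures so that `A` is closed under componentwise meets and joins.

1. `|A|^{|S|} ≤ |π_∞(A)| ∏_{r ∈ S} |π_r(A)|` for all majority-closed `A`, `|S| ≥ 2`.
2. For every `ε > 0` there are a finite set `S` of slopes different from `-1` and `δ > 0` such that
   `|π_{-1}(A)| ≤ (max_r |π_r(A)|)^{1+ε}` for all `A` which are unions of at most `|π_{-1}(A)|^δ`
   majority-closed sets.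

So in the class of majority-closed sets the conjecture holds in the form which is known for the
starting classes (sets of small doubling, sums of `S`-units), with the exponent `1 + 1/|S|`, for
`|A|` instead of `|π_{-1}(A)|`.

Idea of the proof. The kernels `θ_r` of the projections are congruences of an algebra with a majority
operation, so they generate a distributive lattice; `θ_r ∧ θ_s = 0` for `r ≠ s`. Hence the meet of all
`ψ_r = ⋁_{s ≠ r} θ_s` is `0`, `A` is embedded in the product of the `A/ψ_r`, `π_s` determines all of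
the coordinates but one, and the inequality of Loomis and Whitney can be applied.
-/

set_option autoImplicit false

namespace Pool.Agent.Results.MP_169869_co.MajorityClosed

open Finset Pool.Agent.R181.Maj

/-- the projection `π_r(A) = {x + r y : (x, y) ∈ A}` -/
def proj (r : ℚ) (A : Finset (ℤ × ℤ)) : Finset ℚ :=
  A.image (fun p : ℤ × ℤ => (p.1 : ℚ) + r * (p.2 : ℚ))

/-- the projection `π_∞(A) = {y : (x, y) ∈ A}` -/
def projInf (A : Finset (ℤ × ℤ)) : Finset ℚ := A.image (fun p : ℤ × ℤ => (p.2 : ℚ))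

/-- the largest size of a projection of `A` with slope `∞` or in `S` -/
def big (S : Finset ℚ) (A : Finset (ℤ × ℤ)) : ℕ :=
  max (projInf A).card (S.sup fun r => (proj r A).card)

/-- `A` is closed under componentwise majority operations `μ r` on the projections with slope
`r ∈ S` and `ν` on the projection with slope `∞`. -/
def MajorityClosed (S : Finset ℚ) (A : Finset (ℤ × ℤ)) : Prop :=
  ∃ (μ : ℚ → ℚ → ℚ → ℚ → ℚ) (ν : ℚ → ℚ → ℚ → ℚ), (∀ r ∈ S, IsMaj (μ r)) ∧ IsMaj ν ∧
    ∀ a ∈ A, ∀ b ∈ A, ∀ c ∈ A, ∃ d ∈ A, (d.2 : ℚ) = ν a.2 b.2 c.2 ∧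
      ∀ r ∈ S, (d.1 : ℚ) + r * d.2 = μ r (a.1 + r * a.2) (b.1 + r * b.2) (c.1 + r * c.2)

theorem bound_one (S : Finset ℚ) (hS : 2 ≤ #S) (A : Finset (ℤ × ℤ)) (hA : MajorityClosed S A) :
    #A ^ #S ≤ #(projInf A) * ∏ r ∈ S, #(proj r A) := by
  classical
  obtain ⟨μ, ν, hμ, hν, hcl⟩ := hA
  let p : Option {r // r ∈ S} → ℤ × ℤ → ℚ := fun i z =>
    match i with
    | none => (z.2 : ℚ)
    | some r => (z.1 : ℚ) + r.1 * (z.2 : ℚ)
  let κ : Option {r // r ∈ S} → ℚ → ℚ → ℚ → ℚ := fun i =>
    match i with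
    | none => ν
    | some r => μ r.1
  have hcard : Fintype.card (Option {r // r ∈ S}) = #S + 1 := by
    rw [Fintype.card_option, Fintype.card_coe]
  have h := linear_bound (ι := Option {r // r ∈ S}) (by omega) (X := fun _ => ℚ) A p
    (by
      rintro (_ | r) (_ | s) hij a - b - h1 h2
      · exact absurd rfl hij
      · have e1 : (a.2 : ℚ) = b.2 := h1
        have e2 : (a.1 : ℚ) + s.1 * a.2 = b.1 + s.1 * b.2 := h2
        rw [e1] at e2
        have e3 : (a.1 : ℚ) = b.1 := by linarith
        exact Prod.ext (by exact_mod_cast e3) (by exact_mod_cast e1)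
      · have e1 : (a.2 : ℚ) = b.2 := h2
        have e2 : (a.1 : ℚ) + r.1 * a.2 = b.1 + r.1 * b.2 := h1
        rw [e1] at e2
        have e3 : (a.1 : ℚ) = b.1 := by linarith
        exact Prod.ext (by exact_mod_cast e3) (by exact_mod_cast e1)
      · have hne : (r.1 : ℚ) - s.1 ≠ 0 := by
          intro h0
          exact hij (congrArg some (Subtype.ext (sub_eq_zero.1 h0)))
        have e1 : (a.1 : ℚ) + r.1 * a.2 = b.1 + r.1 * b.2 := h1
        have e2 : (a.1 : ℚ) + s.1 * a.2 = b.1 + s.1 * b.2 := h2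
        have e3 : (r.1 - s.1) * ((a.2 : ℚ) - b.2) = 0 := by linear_combination e1 - e2
        have e4 : (a.2 : ℚ) = b.2 := by
          rcases mul_eq_zero.1 e3 with h0 | h0
          · exact absurd h0 hne
          · exact sub_eq_zero.1 h0
        rw [e4] at e1
        have e5 : (a.1 : ℚ) = b.1 := by linarith
        exact Prod.ext (by exact_mod_cast e5) (by exact_mod_cast e4))
    κ (by
      rintro (_ | r)
      · exact hν
      · exact hμ r.1 r.2)
    (by
      intro a ha b hb c hc
      obtain ⟨d, hd, h1, h2⟩ := hcl a ha b hb c hc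
      refine ⟨d, hd, ?_⟩
      rintro (_ | r)
      · exact h1
      · exact h2 r.1 r.2)
  rw [hcard, Nat.add_sub_cancel, Fintype.prod_option] at h
  refine h.trans (le_of_eq ?_)
  congr 1
  exact prod_coe_sort S fun r => #(proj r A)

theorem bound_big (S : Finset ℚ) (hS : 2 ≤ #S) (A : Finset (ℤ × ℤ)) (hA : MajorityClosed S A) :
    #A ^ #S ≤ big S A ^ (#S + 1) := by
  refine (bound_one S hS A hA).trans ?_
  rw [pow_succ, mul_comm]
  refine Nat.mul_le_mul ?_ (le_max_left _ _)
  refine prod_le_pow_card _ _ _ fun r hr => ?_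
  exact (Finset.le_sup (f := fun r => (proj r A).card) hr).trans (le_max_right _ _)

theorem big_mono (S : Finset ℚ) {A B : Finset (ℤ × ℤ)} (h : A ⊆ B) : big S A ≤ big S B := by
  refine max_le_max (card_le_card (image_subset_image h)) (Finset.sup_mono_fun fun r _ => ?_)
  exact card_le_card (image_subset_image h)

theorem union_bound (ε : ℝ) (hε : 0 < ε) : ∃ S : Finset ℚ, (-1 : ℚ) ∉ S ∧ ∃ δ : ℝ, 0 < δ ∧
    ∀ (A : Finset (ℤ × ℤ)) (L : ℕ) (B : Fin L → Finset (ℤ × ℤ)), (∀ i, B i ⊆ A) →
      (∀ a ∈ A, ∃ i, a ∈ B i) → (∀ i, MajorityClosed S (B i)) →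
      (L : ℝ) ≤ ((proj (-1) A).card : ℝ) ^ δ →
      ((proj (-1) A).card : ℝ) ≤ (big S A : ℝ) ^ (1 + ε) := by
  classical
  obtain ⟨k, hk⟩ := exists_nat_gt (2 / ε)
  set K : ℕ := k + 2 with hK
  set S : Finset ℚ := (range K).image fun i : ℕ => (i : ℚ) with hS
  have hSc : #S = K := by
    rw [hS, card_image_of_injective _ Nat.cast_injective, card_range]
  have hKpos : (0 : ℝ) < K := by positivity
  have h1K : 1 / (K : ℝ) ≤ ε / 2 := by
    have h1 : 2 / ε < K := hk.trans (by rw [hK]; push_cast; linarith)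
    rw [div_lt_iff₀ hε] at h1
    rw [div_le_div_iff₀ hKpos (by norm_num)]
    linarith
  refine ⟨S, ?_, ε / (2 * (1 + ε)), by positivity, ?_⟩
  · rw [hS, mem_image]
    rintro ⟨i, -, hi⟩
    have : (0 : ℚ) ≤ (i : ℚ) := Nat.cast_nonneg i
    linarith
  · intro A L B hBA hcov hB hL
    set δ : ℝ := ε / (2 * (1 + ε)) with hδ
    set M : ℝ := (big S A : ℝ) with hM
    set N : ℝ := ((proj (-1) A).card : ℝ) with hN
    rcases A.eq_empty_or_nonempty with rfl | hne
    · have : N = 0 := by rw [hN]; simp [proj]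
      rw [this]
      positivity
    have hM1 : (1 : ℝ) ≤ M := by
      have : 1 ≤ (projInf A).card := card_pos.2 (hne.image _)
      rw [hM]
      exact_mod_cast (this.trans (le_max_left _ _) : 1 ≤ big S A)
    have hN1 : (1 : ℝ) ≤ N := by
      have : 1 ≤ (proj (-1) A).card := card_pos.2 (hne.image _)
      rw [hN]
      exact Nat.one_le_cast.2 this
    have h2 : ∀ i, (#(B i) : ℝ) ≤ M ^ (1 + 1 / (K : ℝ)) := by
      intro i
      have h3 := bound_big S (by rw [hSc]; omega) (B i) (hB i)
      rw [hSc] at h3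
      have h4 : #(B i) ^ K ≤ big S A ^ (K + 1) :=
        h3.trans (Nat.pow_le_pow_left (big_mono S (hBA i)) _)
      refine le_of_pow_le_pow_left₀ (n := K) (by omega) (by positivity) ?_
      have h5 : (M ^ (1 + 1 / (K : ℝ))) ^ K = M ^ (K + 1) := by
        rw [← Real.rpow_natCast, ← Real.rpow_mul (by positivity), ← Real.rpow_natCast]
        congr 1
        push_cast
        field_simp
      rw [h5, hM, ← Nat.cast_pow, ← Nat.cast_pow]
      exact Nat.cast_le.2 h4
    have h6 : (#A : ℝ) ≤ L * M ^ (1 + 1 / (K : ℝ)) := by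
      have h7 : #A ≤ ∑ i : Fin L, #(B i) := by
        have : A ⊆ univ.biUnion B := fun a ha => by
          obtain ⟨i, hi⟩ := hcov a ha
          exact mem_biUnion.2 ⟨i, mem_univ _, hi⟩
        exact (card_le_card this).trans card_biUnion_le
      calc (#A : ℝ) ≤ ((∑ i : Fin L, #(B i) : ℕ) : ℝ) := by exact_mod_cast h7
        _ = ∑ i : Fin L, (#(B i) : ℝ) := by push_cast; rfl
        _ ≤ ∑ _i : Fin L, M ^ (1 + 1 / (K : ℝ)) := sum_le_sum fun i _ => h2 i
        _ = _ := by rw [sum_const, card_univ, Fintype.card_fin, nsmul_eq_mul]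
    have h8 : N ≤ #A := by
      have : (proj (-1) A).card ≤ #A := card_image_le
      rw [hN]
      exact Nat.cast_le.2 this
    have h9 : N ≤ N ^ δ * M ^ (1 + ε / 2) := by
      refine h8.trans (h6.trans (mul_le_mul hL ?_ (by positivity) (by positivity)))
      exact Real.rpow_le_rpow_of_exponent_le hM1 (by linarith)
    have hδ1 : δ < 1 := by
      rw [hδ, div_lt_one (by positivity)]
      linarith
    have hN0 : 0 < N := by linarith
    have h10 : N ^ (1 - δ) ≤ M ^ (1 + ε / 2) := by
      have h11 : N ^ δ * N ^ (1 - δ) = N := by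
        rw [← Real.rpow_add hN0]
        simp
      have h12 : N ^ δ * N ^ (1 - δ) ≤ N ^ δ * M ^ (1 + ε / 2) := by rw [h11]; exact h9
      exact le_of_mul_le_mul_left h12 (Real.rpow_pos_of_pos hN0 _)
    have h13 : 1 - δ = (1 + ε / 2) / (1 + ε) := by
      rw [hδ]
      field_simp
      ring
    have h14 : (N ^ (1 - δ)) ^ (1 / (1 - δ)) ≤ (M ^ (1 + ε / 2)) ^ (1 / (1 - δ)) :=
      Real.rpow_le_rpow (by positivity) h10 (by
        have : 0 < 1 - δ := by linarith
        positivity)
    rw [← Real.rpow_mul hN0.le, ← Real.rpow_mul (by linarith), mul_one_div_cancel (by linarith),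
      Real.rpow_one] at h14
    refine h14.trans (le_of_eq ?_)
    congr 1
    rw [h13]
    field_simp

/-- **Theorem.** (1) `|A|^{|S|} ≤ |π_∞(A)| ∏_{r ∈ S} |π_r(A)|` for all finite sets `S` of at least two
slopes and all majority-closed `A`. (2) For every `ε > 0` there are a finite set `S` of slopes different
from `-1` and `δ > 0` such that `|π_{-1}(A)| ≤ big S A ^ (1 + ε)` for all `A` which are unions of `L`
majority-closed sets with `L ≤ |π_{-1}(A)|^δ`. -/
theorem result :
    (∀ S : Finset ℚ, 2 ≤ #S → ∀ A : Finset (ℤ × ℤ), MajorityClosed S A →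
      #A ^ #S ≤ #(projInf A) * ∏ r ∈ S, #(proj r A)) ∧
    (∀ ε : ℝ, 0 < ε → ∃ S : Finset ℚ, (-1 : ℚ) ∉ S ∧ ∃ δ : ℝ, 0 < δ ∧
      ∀ (A : Finset (ℤ × ℤ)) (L : ℕ) (B : Fin L → Finset (ℤ × ℤ)), (∀ i, B i ⊆ A) →
        (∀ a ∈ A, ∃ i, a ∈ B i) → (∀ i, MajorityClosed S (B i)) →
        (L : ℝ) ≤ ((proj (-1) A).card : ℝ) ^ δ →
        ((proj (-1) A).card : ℝ) ≤ (big S A : ℝ) ^ (1 + ε)) :=
  ⟨bound_one, union_bound⟩

end Pool.Agent.Results.MP_169869_co.MajorityClosed
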