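import Pool.Agent.TH404.AK.Sdc3
import Pool.Agent.R470.AK.Part

/-! # The slopes in the arithmetic Kakeya conjecture can be taken from one class of any partition

`Bound S κ`: the inequality `|π₋₁(A)| ≤ max(|π_∞(A)|, max_{r ∈ S} |π_r(A)|) ^ κ` holds for all finite
`A ⊂ ℤ × ℤ`. We say that `κ` is attained if `Bound S κ` for some finite set `S` of slopes `≠ -1`; the
conjecture says that all `κ > 1` are attained.

1. Let `R` be a set of slopes for which the numbers `1 / (r + 1)`, `r ∈ R`, contain arithmetic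
   progressions of every length (anywhere, with any common difference). Then every attained exponent
   is attained with slopes from `R`, and `1.669587` is attained with slopes from `R`.
2. Let the slopes `0, 1, 2, …` be divided into finitely many classes. Then there is ONE class such that
   every attained exponent is attained with slopes from this class, and `1.669587` is one of them. -/

set_option autoImplicit false

namespace Pool.Agent.Results.MP_169869_co.PartitionedSlopes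

/-- the projection `π_r(A) = {x + r y : (x, y) ∈ A}` -/
def proj (r : ℚ) (A : Finset (ℤ × ℤ)) : Finset ℚ :=
  A.image (fun p : ℤ × ℤ => (p.1 : ℚ) + r * (p.2 : ℚ))

/-- the projection `π_∞(A) = {y : (x, y) ∈ A}` -/
def projInf (A : Finset (ℤ × ℤ)) : Finset ℚ := A.image (fun p : ℤ × ℤ => (p.2 : ℚ))

/-- the largest size of a projection of `A` with slope `∞` or in `S` -/
def big (S : Finset ℚ) (A : Finset (ℤ × ℤ)) : ℕ :=
  max (projInf A).card (S.sup fun r => (proj r A).card)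

/-- the inequality with exponent `κ` and the slopes `∞` and `S` -/
def Bound (S : Finset ℚ) (κ : ℝ) : Prop :=
  ∀ A : Finset (ℤ × ℤ), ((proj (-1) A).card : ℝ) ≤ (big S A : ℝ) ^ κ

/-- the exponent `κ` is attained by some finite set of slopes -/
def Attained (κ : ℝ) : Prop := ∃ S : Finset ℚ, (-1 : ℚ) ∉ S ∧ Bound S κ

theorem attained_sdc : Attained 1.669587 := by
  obtain ⟨S, hS, h⟩ := Pool.Agent.TH404.AK.sdc3
  refine ⟨S, hS, fun A => ?_⟩
  have h1 := h A
  have h2 : (1.669587 : ℝ) = 1669587 / 1000000 := by norm_num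
  unfold big proj projInf
  rw [h2]
  push_cast
  exact h1

theorem result :
    -- 1. slopes with progressions of every length in the coordinate `1 / (r + 1)`
    (∀ R : Set ℚ, (∀ k : ℕ, ∃ a b : ℚ, b ≠ 0 ∧ ∀ j : ℕ, j ≤ k →
        ∃ r ∈ R, r + 1 ≠ 0 ∧ 1 / (r + 1) = a + b * j) →
      (∀ κ : ℝ, 0 ≤ κ → Attained κ →
        ∃ S : Finset ℚ, (S : Set ℚ) ⊆ R ∧ (-1 : ℚ) ∉ S ∧ Bound S κ) ∧
      ∃ S : Finset ℚ, (S : Set ℚ) ⊆ R ∧ (-1 : ℚ) ∉ S ∧ Bound S 1.669587) ∧
    -- 2. one class of every finite partition of the slopes `0, 1, 2, …`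
    (∀ (c : ℕ) (χ : ℕ → Fin c), ∃ i : Fin c,
      (∀ κ : ℝ, 0 ≤ κ → Attained κ →
        ∃ S : Finset ℕ, (∀ n ∈ S, χ n = i) ∧ Bound (S.image fun n : ℕ => (n : ℚ)) κ) ∧
      ∃ S : Finset ℕ, (∀ n ∈ S, χ n = i) ∧ Bound (S.image fun n : ℕ => (n : ℚ)) 1.669587) := by
  classical
  have key1 : ∀ R : Set ℚ, Pool.Agent.R470.AK.Rich R → ∀ κ : ℝ, 0 ≤ κ → Attained κ →
      ∃ S : Finset ℚ, (S : Set ℚ) ⊆ R ∧ (-1 : ℚ) ∉ S ∧ Bound S κ := by
    rintro R hR κ hκ ⟨S₀, h0, h⟩
    obtain ⟨S, h1, h2, h3⟩ := Pool.Agent.R470.AK.rich_bound hR hκ h0 h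
    exact ⟨S, h1, h2, h3⟩
  have key2 : ∀ (c : ℕ) (χ : ℕ → Fin c) (i : Fin c),
      Pool.Agent.R470.AK.Rich {r : ℚ | ∃ n : ℕ, χ n = i ∧ r = n} → ∀ κ : ℝ, 0 ≤ κ → Attained κ →
      ∃ S : Finset ℕ, (∀ n ∈ S, χ n = i) ∧ Bound (S.image fun n : ℕ => (n : ℚ)) κ := by
    intro c χ i hi κ hκ hA
    obtain ⟨S, h1, -, h3⟩ := key1 _ hi κ hκ hA
    have h4 : ∀ r ∈ S, ∃ n : ℕ, χ n = i ∧ r = n := fun r hr => h1 (Finset.mem_coe.2 hr)
    choose! f hf1 hf2 using h4
    refine ⟨S.image f, ?_, ?_⟩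
    · intro n hn
      obtain ⟨r, hr, rfl⟩ := Finset.mem_image.1 hn
      exact hf1 r hr
    · have : (S.image f).image (fun n : ℕ => (n : ℚ)) = S := by
        ext r
        simp only [Finset.mem_image]
        constructor
        · rintro ⟨_, ⟨r', hr', rfl⟩, rfl⟩
          rw [← hf2 r' hr']
          exact hr'
        · intro hr
          exact ⟨f r, ⟨r, hr, rfl⟩, (hf2 r hr).symm⟩
      rw [this]
      exact h3
  refine ⟨fun R hR => ?_, fun c χ => ?_⟩
  · exact ⟨key1 R hR, key1 R hR _ (by norm_num) attained_sdc⟩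
  · obtain ⟨i, hi⟩ := Pool.Agent.R470.AK.class_rich χ
    exact ⟨i, key2 c χ i hi, key2 c χ i hi _ (by norm_num) attained_sdc⟩

end Pool.Agent.Results.MP_169869_co.PartitionedSlopes
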