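import Pool.Agent.TH404.AK.Sdc3
import Pool.Agent.R535.AK.Equiv

/-!
# The arithmetic Kakeya conjecture for random sets of differences

Let `big S A` be the largest size of a projection of `A ⊂ ℤ × ℤ` with slope `∞` or in `S`. There is a
finite set `S` of slopes different from `-1` such that, with the exponent `τ = 1 / 1.669587`:

1. Let `X ⊂ ℤ × ℤ` be ANY finite set on which `x - y` is injective, and `N ≤ δ |X| ^ τ`. Then
   `|π₋₁(A)| = N ≤ big S A / δ` for all but a proportion `2 ^ (-N)` of the `N`-element subsets `A` of
   `X`: almost all of them satisfy the inequality of the conjecture with exponent one, up to a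
   constant.
2. Let `D` be ANY finite set of integers, `X` ANY set of at most `|D| ^ C` integer points, `η > 0` and
   `N ≤ |D| ^ ((1 - η) τ)`. For all but a proportion `2 ^ (-N)` of the `N`-element subsets `B` of `D` all
   sets `A ⊆ X` with `B ⊆ π₋₁(A)` satisfy `big S A ≥ δ |B|`, `δ = δ(C, η) > 0`. Here the set of the
   differences is random, and the points with these differences are chosen by an adversary who
   knows it.
3. The conjecture is equivalent to the statement 1 in the range `N ≤ δ |X| ^ (1 - ε)`, and to the
   statement 2 in the range `N ≤ |D| ^ (1 - ε)` (for all `ε > 0`, with `S` depending on `ε`).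

Proof. If all the projections of `A` have at most `M = δ N` elements, there is a set `A₀ ⊆ A` of at most
`(|S| + 1) M` points with the same projections, and `A` is contained in the set of all the points of `X`
whose projections are projections of points of `A₀`. This set has at most `M ^ 1.669587` differences
by the starting result `ChainSumsDifferences`, so there are few possibilities for `A`, or for `B`.
Conversely one good set of `N` points with `N` slightly larger than `big S X / δ` is impossible; the
constant is removed by additional slopes, one of which is injective on sets of bounded size.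
-/

set_option autoImplicit false

namespace Pool.Agent.Results.MP_169869_co.RandomDifferences

open Pool.Agent.R535.AK

open Classical in
theorem result :
    (∃ S : Finset ℚ, (-1 : ℚ) ∉ S ∧
      (∃ δ : ℝ, 0 < δ ∧
        ∀ X : Finset (ℤ × ℤ), Set.InjOn (fun p : ℤ × ℤ => p.1 - p.2) (X : Set (ℤ × ℤ)) →
        ∀ N : ℕ, (N : ℝ) ≤ δ * (X.card : ℝ) ^ (1 / 1.669587 : ℝ) →
          2 ^ N * ((X.powersetCard N).filter (fun A => (big S A : ℝ) < δ * N)).card ≤
            X.card.choose N) ∧
      (∀ C η : ℝ, 0 < η → η < 1 → ∃ δ : ℝ, 0 < δ ∧
        ∀ (D : Finset ℤ) (X : Finset (ℤ × ℤ)), (X.card : ℝ) ≤ (D.card : ℝ) ^ C →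
        ∀ N : ℕ, (N : ℝ) ≤ (D.card : ℝ) ^ ((1 - η) / 1.669587) →
          2 ^ N * ((D.powersetCard N).filter
            (fun B => ∃ A ⊆ X, B ⊆ diffs A ∧ (big S A : ℝ) < δ * N)).card ≤
            D.card.choose N)) ∧
    (Conjecture ↔ SubForm) ∧ (Conjecture ↔ LiftForm) := by
  refine ⟨?_, equivalences⟩
  obtain ⟨S, hS, h⟩ := Pool.Agent.TH404.AK.sdc3
  have hκ : (1 : ℝ) ≤ 1.669587 := by norm_num
  have hB : Bound S 1.669587 := by
    intro A
    have h1 := h A
    have h2 : (1.669587 : ℝ) = 1669587 / 1000000 := by norm_num
    rw [h2]
    unfold proj big projInf proj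
    rw [Nat.cast_max]
    exact h1
  refine ⟨S, hS, ?_, fun C η h0 h1 => rand_lift hκ hB C η h0 h1⟩
  refine ⟨min (1 / (2 * ((S.card : ℝ) + 1))) (1 / 16), lt_min (by positivity) (by norm_num),
    fun X hX N hN => ?_⟩
  have h2 := rand_sub hκ hB X hX N (by
    refine hN.trans ?_
    gcongr
    exact min_le_right _ _)
  refine le_trans (Nat.mul_le_mul_left _ (Finset.card_le_card ?_)) h2
  intro A hA
  rw [Finset.mem_filter] at hA ⊢
  refine ⟨hA.1, hA.2.trans_le ?_⟩
  gcongr
  exact min_le_left _ _

end Pool.Agent.Results.MP_169869_co.RandomDifferences
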